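import Pool.Agent.MP_4b405e_nt.H41.Web
import Pool.Agent.MP_4b405e_nt.H19.Final

/-! From the entropy bound to covering numbers, for the pattern `0, 2, 3, 6`. -/

namespace Pool.Agent.MP_4b405e_nt.H41

open Pool.Agent.MP_4b405e_nt.H17 Pool.Agent.MP_4b405e_nt.H19

theorem fin_bound (m : ℕ) (G : Finset ((Fin m → ℤ) × (Fin m → ℤ))) (N : ℕ)
    (hinj : Set.InjOn Prod.snd (G : Set ((Fin m → ℤ) × (Fin m → ℤ))))
    (hN : ∀ i ∈ ({0, 2, 3, 6} : Finset ℕ), (G.image fun p => p.1 + (i : ℤ) • p.2).card ≤ N) :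
    (G.card : ℝ) ≤ 1 * (N : ℝ) ^ (201 / 115 : ℝ) := by
  classical
  rcases G.eq_empty_or_nonempty with rfl | hG
  · simp only [Finset.card_empty, Nat.cast_zero, one_mul]; positivity
  have hN1 : (1:ℝ) ≤ N := by
    have := (hG.image fun p => p.1 + ((0:ℕ) : ℤ) • p.2).card_pos.trans_le (hN 0 (by simp))
    exact_mod_cast this
  let g : (unif G hG).Ω → (Fin m → ℤ) × (Fin m → ℤ) := fun q => (q.1.1 + (6 : ℤ) • q.1.2, q.1.1)
  have hd : ∀ x y : (unif G hG).Ω, (g x).1 - (g x).2 = (g y).1 - (g y).2 → x = y :=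
    fun x y h => Subtype.ext (hinj x.2 y.2 (smul_right_injective _ (by norm_num : (6 : ℤ) ≠ 0) (by
      simp only [g] at h
      linear_combination (norm := module) h)))
  have hb : ∀ i ∈ ({0, 2, 3, 6} : Finset ℕ), ∀ (k : ℤ) (X : (unif G hG).Ω → Fin m → ℤ),
      (∀ q, X q = k • (q.1.1 + (i : ℤ) • q.1.2)) → (unif G hG).H X ≤ Real.log N := by
    intro i hi k X hX
    have h1 : (unif G hG).H X ≤ (unif G hG).H fun q => q.1.1 + (i : ℤ) • q.1.2 :=
      (unif G hG).H_mono fun x y h => (hX x).trans ((congrArg (k • ·) h).trans (hX y).symm)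
    have h2 := (unif G hG).H_le_log (fun q => q.1.1 + (i : ℤ) • q.1.2)
      (G.image fun p => p.1 + (i : ℤ) • p.2) fun x => Finset.mem_image_of_mem _ x.2
    refine h1.trans (h2.trans (Real.log_le_log ?_ ?_))
    · exact_mod_cast (hG.image _).card_pos
    · exact_mod_cast hN i hi
  have hB : Bd (unif G hG) g (Real.log N) :=
    ⟨fun x y h => congrArg g (hd x y h),
      hb 6 (by simp) 1 _ fun q => by simp only [g]; push_cast; module,
      hb 0 (by simp) 1 _ fun q => by simp only [g]; push_cast; module,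
      hb 3 (by simp) 2 _ fun q => by simp only [g, fs]; push_cast; module,
      hb 2 (by simp) 3 _ fun q => by simp only [g, fr]; push_cast; module⟩
  have h := four hB fun z hz => smul_right_injective _ (by norm_num : (2 : ℤ) ≠ 0) (by
    linear_combination (norm := module) hz)
  rw [unif_H G hG g fun x y e => hd x y (by rw [e])] at h
  have hc0 : (0:ℝ) < G.card := by exact_mod_cast hG.card_pos
  rw [one_mul, Real.rpow_def_of_pos (by linarith), ← Real.exp_log hc0, Real.exp_le_exp]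
  linarith

theorem core4 {m : ℕ} {δ : ℝ} (hδ : 0 < δ) (D : Finset (Fin m → ℤ))
    (p : (Fin m → ℤ) → Fin m → ℝ) {ι : Type} (T : Finset ι) (c : ι → Fin m → ℝ)
    (hT : ∀ w ∈ D, ∀ i ∈ ({0, 2, 3, 6} : Finset ℕ), ∃ s ∈ T,
      ∀ j, |p w j + i * (δ * w j) - c s j| < δ) :
    (D.card : ℝ) ≤ 1 * ((5 ^ m * T.card : ℕ) : ℝ) ^ (201 / 115 : ℝ) := by
  classical
  let f : (Fin m → ℤ) → (Fin m → ℤ) × (Fin m → ℤ) := fun w => (fun j => ⌊p w j / δ⌋, w)
  have hf : Function.Injective f := fun a b h => congrArg Prod.snd h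
  rw [← Finset.card_image_of_injective D hf]
  refine fin_bound m (D.image f) _ ?_ fun i hi => ?_
  · intro a ha b hb hab
    simp only [Finset.coe_image, Set.mem_image, Finset.mem_coe] at ha hb
    obtain ⟨w, -, rfl⟩ := ha
    obtain ⟨w', -, rfl⟩ := hb
    have : w = w' := hab
    rw [this]
  · have hsub : ((D.image f).image fun q => q.1 + (i : ℤ) • q.2) ⊆
        T.biUnion fun s => box δ (c s) := by
      intro z hz
      simp only [Finset.mem_image] at hz
      obtain ⟨q, ⟨w, hw, rfl⟩, rfl⟩ := hz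
      obtain ⟨s, hs, hc⟩ := hT w hw i hi
      exact Finset.mem_biUnion.2 ⟨s, hs, mem_box hδ (c s) (p w) w i hc⟩
    calc _ ≤ (T.biUnion fun s => box δ (c s)).card := Finset.card_le_card hsub
      _ ≤ ∑ s ∈ T, (box δ (c s)).card := Finset.card_biUnion_le
      _ = 5 ^ m * T.card := by simp [card_box, mul_comm]

theorem cover4 (n : ℕ) :
    ∃ c : ℝ, 0 < c ∧ ∀ B : Set (EuclideanSpace ℝ (Fin n)),
      (∀ d : EuclideanSpace ℝ (Fin n), (∀ i, d i ∈ Set.Icc (0 : ℝ) 1) →
        ∃ a : EuclideanSpace ℝ (Fin n), ∀ j ∈ ({0, 2, 3, 6} : Finset ℕ), a + (j : ℝ) • d ∈ B) →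
      ∀ δ : ℝ, 0 < δ → ∀ S : Finset (EuclideanSpace ℝ (Fin n)),
        B ⊆ (⋃ x ∈ S, Metric.ball x δ) →
        c * δ ^ (-((n : ℝ) / (201 / 115))) ≤ (S.card : ℝ) := by
  refine ⟨(1 / 1) ^ (1 / (201 / 115) : ℝ) / 5 ^ n, by positivity, fun B hB δ hδ S hS => ?_⟩
  have hex : ∀ w : Fin n → ℤ, ∃ a : EuclideanSpace ℝ (Fin n), w ∈ grid n (1 / δ) →
      ∀ j ∈ ({0, 2, 3, 6} : Finset ℕ), a + (j : ℝ) • (WithLp.toLp 2 fun i => δ * w i) ∈ B := by
    intro w
    by_cases hw : w ∈ grid n (1 / δ)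
    · obtain ⟨a, ha⟩ := hB (WithLp.toLp 2 fun i => δ * w i) fun i => by
        have := mem_grid hw i
        refine ⟨mul_nonneg hδ.le this.1, ?_⟩
        have h2 := this.2
        rw [le_div_iff₀ hδ] at h2
        simpa [mul_comm] using h2
      exact ⟨a, fun _ => ha⟩
    · exact ⟨0, fun h => absurd h hw⟩
  choose a ha using hex
  have key := core4 hδ (grid n (1 / δ)) (fun w j => a w j) S (fun s j => s j) (by
      intro w hw i hi
      have h1 := hS (ha w hw i hi)
      simp only [Set.mem_iUnion] at h1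
      obtain ⟨s, hs, h2⟩ := h1
      refine ⟨s, hs, fun j => ?_⟩
      simpa using abs_coord_lt h2 j)
  have h1 := le_card_grid n (L := 1 / δ) (by positivity)
  have h2 : (1 / δ) ^ n ≤ 1 * ((5 : ℝ) ^ n * S.card) ^ (201 / 115 : ℝ) := by
    have := h1.trans key
    push_cast at this
    exact this
  have h3 := solve (by norm_num) one_pos (by positivity) (by positivity) (by positivity) h2
  refine le_trans (le_of_eq ?_) h3
  have e : ((1 / δ) ^ n / 1) ^ (1 / (201 / 115) : ℝ) =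
      (1 / 1) ^ (1 / (201 / 115) : ℝ) * δ ^ (-((n : ℝ) / (201 / 115))) := by
    rw [show (1 / δ) ^ n / 1 = 1 / 1 * (δ ^ (-(n : ℝ))) by
      rw [Real.rpow_neg hδ.le, Real.rpow_natCast, one_div δ, inv_pow]; ring]
    rw [Real.mul_rpow (by positivity) (by positivity), ← Real.rpow_mul hδ.le]
    congr 2; ring
  rw [e]; ring

end Pool.Agent.MP_4b405e_nt.H41
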