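import Pool.Agent.MP_4b405e_nt.H41.Cover

namespace Pool.Agent.MP_4b405e_nt.H41.FourSlope

open Pool.Agent.MP_4b405e_nt

/-- Every set in `ℝ^n` that contains a pattern `a, a + 2 r, a + 3 r, a + 6 r` for each `r` in the
unit cube needs at least `c δ ^ (-115 n / 201)` sets of diameter at most `δ` to be covered. -/
theorem result (n : ℕ) :
    ∃ c : ℝ, 0 < c ∧ ∀ B : Set (EuclideanSpace ℝ (Fin n)),
      (∀ r : EuclideanSpace ℝ (Fin n), (∀ i, r i ∈ Set.Icc (0 : ℝ) 1) →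
        ∃ a : EuclideanSpace ℝ (Fin n), a ∈ B ∧ a + (2 : ℝ) • r ∈ B ∧ a + (3 : ℝ) • r ∈ B ∧
          a + (6 : ℝ) • r ∈ B) →
      ∀ δ : ℝ, 0 < δ → ∀ 𝒰 : Finset (Set (EuclideanSpace ℝ (Fin n))),
        (∀ U ∈ 𝒰, ∀ x ∈ U, ∀ y ∈ U, dist x y ≤ δ) → B ⊆ (⋃ U ∈ 𝒰, U) →
        c * δ ^ (-((n : ℝ) / (201 / 115))) ≤ (𝒰.card : ℝ) := by
  obtain ⟨c, hc, h1⟩ := H41.cover4 n
  refine ⟨c * 2 ^ (-((n : ℝ) / (201 / 115))), by positivity, fun B hB δ hδ 𝒰 hd hU =>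
    H19.sets_of_balls hc (h1 B fun r hr => ?_) δ hδ 𝒰 hd hU⟩
  obtain ⟨a, h0, h2, h3, h6⟩ := hB r hr
  refine ⟨a, fun j hj => ?_⟩
  simp only [Finset.mem_insert, Finset.mem_singleton] at hj
  rcases hj with rfl | rfl | rfl | rfl
  · simpa using h0
  · exact_mod_cast h2
  · exact_mod_cast h3
  · exact_mod_cast h6

end Pool.Agent.MP_4b405e_nt.H41.FourSlope
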