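import Pool.Agent.MP_4b405e_nt.H17.Main

/-! Entropy inequalities with side information for the slopes `0, 1, 2, ∞`. -/

namespace Pool.Agent.MP_4b405e_nt.H41

open Pool.Agent.MP_4b405e_nt.H17

variable {α β γ δ ε ζ η : Type}

theorem sub_add (S : Sp) {X : S.Ω → α} {Y : S.Ω → β} {U : S.Ω → γ}
    (hU : ∀ ω ω', X ω = X ω' → Y ω = Y ω' → U ω = U ω') : S.H U ≤ S.H X + S.H Y := by
  have := S.submod (Z := fun _ => ()) (fun _ _ _ => rfl) (fun _ _ _ => rfl) hU
  have := S.H_nonneg fun _ => ()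
  linarith

/-- The scheme of the argument of Katz and Tao. -/
theorem kt (T : Sp) {G : T.Ω → α} {ν : T.Ω → β} {f : T.Ω → γ} {U : T.Ω → δ} {V : T.Ω → ε}
    (h1 : Det U ν) (h2 : Det V ν) (h3 : ∀ ω ω', U ω = U ω' → V ω = V ω' → G ω = G ω')
    (h4 : ∀ ω ω', ν ω = ν ω' → f ω = f ω' → G ω = G ω') :
    2 * T.H G ≤ T.H f + T.H U + T.H V := by
  have a := T.submod h1 h2 h3
  have b := sub_add T h4
  linarith

/-- Conditionally independent gluing, without the construction. -/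
theorem dbl (S T : Sp) (Z : S.Ω → γ) (Z' : T.Ω → γ) (h : Law S Z T Z') :
    ∃ (M : Sp) (φ : M.Ω → S.Ω) (ψ : M.Ω → T.Ω), MP M S φ ∧ MP M T ψ ∧
      (∀ t, Z (φ t) = Z' (ψ t)) ∧ ∀ (X : S.Ω → α) (Y : T.Ω → β), Det X Z → Det Y Z' →
        M.H (fun t => (X (φ t), Y (ψ t))) + T.H Z' = S.H X + T.H Y :=
  ⟨glue S T Z Z' h, fun x => x.1.1, fun x => x.1.2, glue_fst h, glue_snd h, fun x => x.2,
    fun _ _ hX hY => glue_ci h hX hY⟩

/-- Two copies that are glued along the side information and one projection. -/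
theorem rule (S : Sp) (W : S.Ω → α) (g : S.Ω → β) (e : β → γ) (P : β → δ) (P' : β → ε) (K : ℝ)
    (hK : ∀ (T : Sp) (φ ψ : T.Ω → S.Ω), MP T S φ → MP T S ψ →
      (∀ t, e (g (φ t)) = e (g (ψ t))) → 2 * T.H (fun t => (g (φ t), g (ψ t))) ≤
        K + T.H fun t => (P (g (φ t)), P' (g (ψ t)))) :
    S.H W + S.H g + 3 * S.H (fun ω => (W ω, g ω)) ≤ S.H (fun ω => (W ω, P (g ω))) +
      S.H (fun ω => (W ω, P' (g ω))) + 2 * S.H (fun ω => (W ω, e (g ω))) + K := by
  obtain ⟨T, φ, ψ, hφ, hψ, hl, hci⟩ := dbl (α := α × β) (β := α × β) S S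
    (fun ω => (W ω, e (g ω))) (fun ω => (W ω, e (g ω))) (Law.refl S _)
  have hW : ∀ t, W (φ t) = W (ψ t) := fun t => (Prod.mk.inj (hl t)).1
  have he : ∀ t, e (g (φ t)) = e (g (ψ t)) := fun t => (Prod.mk.inj (hl t)).2
  have hd : Det (fun ω => (W ω, g ω)) fun ω => (W ω, e (g ω)) := fun _ _ h =>
    pm (Prod.mk.inj h).1 (congrArg e (Prod.mk.inj h).2)
  have h0 := hci (fun ω => (W ω, g ω)) (fun ω => (W ω, g ω)) hd hd
  have h1 := T.submod (X := fun t => (W (φ t), P (g (φ t)))) (Y := fun t => (W (ψ t), P' (g (ψ t))))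
    (Z := fun t => W (φ t)) (U := fun t => (W (φ t), P (g (φ t)), P' (g (ψ t))))
    (fun _ _ h => (Prod.mk.inj h).1)
    (fun a b h => (hW a).trans ((Prod.mk.inj h).1.trans (hW b).symm))
    fun _ _ h h' => pm (Prod.mk.inj h).1 (pm (Prod.mk.inj h).2 (Prod.mk.inj h').2)
  have h2 := T.submod (X := fun t => (W (φ t), P (g (φ t)), P' (g (ψ t))))
    (Y := fun t => (g (φ t), g (ψ t))) (Z := fun t => (P (g (φ t)), P' (g (ψ t))))
    (U := fun t => ((W (φ t), g (φ t)), (W (ψ t), g (ψ t))))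
    (fun _ _ h => (Prod.mk.inj h).2)
    (fun _ _ h => pm (congrArg P (Prod.mk.inj h).1) (congrArg P' (Prod.mk.inj h).2))
    fun a b h h' => pm (pm (Prod.mk.inj h).1 (Prod.mk.inj h').1)
      (pm ((hW a).symm.trans ((Prod.mk.inj h).1.trans (hW b))) (Prod.mk.inj h').2)
  have h3 := T.submod (X := fun t => (g (φ t), g (ψ t))) (Y := fun t => (W (φ t), g (φ t)))
    (Z := fun t => g (φ t)) (U := fun t => ((W (φ t), g (φ t)), (W (ψ t), g (ψ t))))
    (fun _ _ h => (Prod.mk.inj h).1) (fun _ _ h => (Prod.mk.inj h).2)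
    fun a b h h' => pm h'
      (pm ((hW a).symm.trans ((Prod.mk.inj h').1.trans (hW b))) (Prod.mk.inj h).2)
  have h4 := hK T φ ψ hφ hψ he
  have e1 := hφ.H fun ω => (W ω, P (g ω))
  have e2 := hψ.H fun ω => (W ω, P' (g ω))
  have e3 := hφ.H W
  have e4 := hφ.H g
  have e5 := hφ.H fun ω => (W ω, g ω)
  linarith

variable {Z : Type} [AddCommGroup Z]

/-- The sum. -/
def fs (g : Z × Z) : Z := g.1 + g.2

/-- The sum with the double of the second coordinate. -/
def fr (g : Z × Z) : Z := g.1 + g.2 + g.2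

/-- The difference determines the point. -/
def Inj {Ω : Type} (g : Ω → Z × Z) : Prop :=
  ∀ ω ω', (g ω).1 - (g ω).2 = (g ω').1 - (g ω').2 → g ω = g ω'

section Pair

variable {T : Sp} {g g' : T.Ω → Z × Z}

theorem ktS (hi : Inj g) (h : ∀ t, fs (g t) = fs (g' t)) :
    2 * T.H (fun t => (g t, g' t)) ≤ T.H (fun t => (g' t).2) +
      T.H (fun t => ((g t).1, (g' t).1)) + T.H fun t => ((g t).2, fr (g' t)) := by
  unfold fs at h
  refine kt T (ν := fun t => (g t).1 + (g t).1 - (g' t).1) (fun a b h1 => ?_) (fun a b h1 => ?_)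
    (fun a b h1 h2 => ?_) fun a b h1 h2 => ?_
  · obtain ⟨e1, e2⟩ := Prod.mk.inj h1
    simp only [e1, e2]
  · obtain ⟨e1, e2⟩ := Prod.mk.inj h1
    unfold fr at e2
    linear_combination (norm := module) e2 - (2 : ℤ) • e1 + (2 : ℤ) • h a - (2 : ℤ) • h b
  · obtain ⟨e1, e2⟩ := Prod.mk.inj h1
    obtain ⟨e3, -⟩ := Prod.mk.inj h2
    refine pm (Prod.ext e1 e3) (Prod.ext e2 ?_)
    linear_combination (norm := module) e1 + e3 - e2 - h a + h b
  · have e : g a = g b := hi a b (by linear_combination (norm := module) h1 - h2 - h a + h b)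
    have e1 := congrArg Prod.fst e
    refine pm e (Prod.ext ?_ h2)
    linear_combination (norm := module) (2 : ℤ) • e1 - h1

theorem ktX (hi : Inj g) (h : ∀ t, (g t).1 = (g' t).1) :
    2 * T.H (fun t => (g t, g' t)) ≤ T.H (fun t => (g' t).2) +
      T.H (fun t => (fs (g t), fs (g' t))) + T.H fun t => ((g t).2, fr (g' t)) := by
  refine kt T (ν := fun t => fr (g' t) - (g t).2) (fun a b h1 => ?_) (fun a b h1 => ?_)
    (fun a b h1 h2 => ?_) fun a b h1 h2 => ?_
  · obtain ⟨e1, e2⟩ := Prod.mk.inj h1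
    unfold fs at e1 e2
    unfold fr
    linear_combination (norm := module) (2 : ℤ) • e2 - e1 + h a - h b
  · obtain ⟨e1, e2⟩ := Prod.mk.inj h1
    simp only [e1, e2]
  · obtain ⟨e1, e2⟩ := Prod.mk.inj h1
    obtain ⟨e3, e4⟩ := Prod.mk.inj h2
    unfold fs at e1 e2
    unfold fr at e4
    refine pm (Prod.ext ?_ e3) (Prod.ext ?_ ?_)
    · linear_combination (norm := module) e1 - e3
    · linear_combination (norm := module) (2 : ℤ) • e2 - e4
    · linear_combination (norm := module) e4 - e2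
  · unfold fr at h1
    have e : g a = g b := hi a b (by
      linear_combination (norm := module) h1 - (2 : ℤ) • h2 + h a - h b)
    exact pm e (Prod.ext ((h a).symm.trans ((congrArg Prod.fst e).trans (h b))) h2)

end Pair

section Rules

variable {S : Sp} {g : S.Ω → Z × Z} {N : ℝ}

/-- All four projections have entropy at most `N`. -/
structure Bd (S : Sp) (g : S.Ω → Z × Z) (N : ℝ) : Prop where
  inj : Inj g
  x : S.H (fun ω => (g ω).1) ≤ N
  y : S.H (fun ω => (g ω).2) ≤ N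
  s : S.H (fun ω => fs (g ω)) ≤ N
  r : S.H (fun ω => fr (g ω)) ≤ N

theorem Bd.pull (h : Bd S g N) {T : Sp} {φ : T.Ω → S.Ω} (hφ : MP T S φ) :
    Bd T (fun t => g (φ t)) N :=
  ⟨fun _ _ e => h.inj _ _ e, (hφ.H fun ω => (g ω).1).trans_le h.x,
    (hφ.H fun ω => (g ω).2).trans_le h.y, (hφ.H fun ω => fs (g ω)).trans_le h.s,
    (hφ.H fun ω => fr (g ω)).trans_le h.r⟩

theorem pair_le (T : Sp) (X : T.Ω → α) (Y : T.Ω → β) :
    T.H (fun t => (X t, Y t)) ≤ T.H X + T.H Y := sub_add T fun _ _ => pm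

theorem rule1 (h : Bd S g N) (W : S.Ω → α) :
    S.H W + S.H g + 3 * S.H (fun ω => (W ω, g ω)) ≤ 2 * S.H (fun ω => (W ω, (g ω).1)) +
      2 * S.H (fun ω => (W ω, fs (g ω))) + 3 * N := by
  have := rule S W g fs Prod.fst Prod.fst (3 * N) fun T φ ψ hφ hψ he => by
    have a := ktS (h.pull hφ).inj he
    have b := pair_le T (fun t => (g (φ t)).2) fun t => fr (g (ψ t))
    linarith [(h.pull hφ).y, (h.pull hψ).y, (h.pull hψ).r]
  linarith

theorem rule2 (h : Bd S g N) (W : S.Ω → α) :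
    S.H W + S.H g + 3 * S.H (fun ω => (W ω, g ω)) ≤ S.H (fun ω => (W ω, (g ω).2)) +
      S.H (fun ω => (W ω, fr (g ω))) + 2 * S.H (fun ω => (W ω, fs (g ω))) + 3 * N :=
  rule S W g fs Prod.snd fr (3 * N) fun T φ ψ hφ hψ he => by
    have a := ktS (h.pull hφ).inj he
    have b := pair_le T (fun t => (g (φ t)).1) fun t => (g (ψ t)).1
    linarith [(h.pull hφ).x, (h.pull hψ).y, (h.pull hψ).x]

theorem rule3 (h : Bd S g N) (W : S.Ω → α) :
    S.H W + S.H g + 3 * S.H (fun ω => (W ω, g ω)) ≤ S.H (fun ω => (W ω, (g ω).2)) +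
      S.H (fun ω => (W ω, fr (g ω))) + 2 * S.H (fun ω => (W ω, (g ω).1)) + 3 * N :=
  rule S W g Prod.fst Prod.snd fr (3 * N) fun T φ ψ hφ hψ he => by
    have a := ktX (h.pull hφ).inj he
    have b := pair_le T (fun t => fs (g (φ t))) fun t => fs (g (ψ t))
    linarith [(h.pull hφ).s, (h.pull hψ).y, (h.pull hψ).s]

end Rules

end Pool.Agent.MP_4b405e_nt.H41
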