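import Pool.Agent.MP_5168f5_an.H41.Main

/-! Arithmetic Kakeya modulo `N` along a chain of divisors. -/

namespace Pool.Agent.MP_4b405e_nt.H41

open Finset Pool.Agent.MP_5168f5_an.H41

/-- A Brascamp-Lieb type inequality for the first `k` slices. -/
def BL {G : Type} [AddCommGroup G] [Fintype G] (k : ℕ) (σ : ℝ) (D : Finset G) (a : G → G)
    (C : ℝ) : Prop :=
  ∀ ν : ℕ → G → ℝ, (∀ t z, 0 ≤ ν t z) →
    ∑ d ∈ D, ∏ t ∈ range k, ν t (a d + t • d) ^ σ ≤ C * ∏ t ∈ range k, (∑ z, ν t z) ^ σ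

theorem BL.step {G H Q : Type} [AddCommGroup G] [Fintype G] [AddCommGroup H] [Fintype H]
    [AddCommGroup Q] [Fintype Q] {k L : ℕ} {σ C C' : ℝ} (π : G →+ Q) (ι : H →+ G)
    (hι : Function.Injective ι) (hex : ∀ x, π x = 0 ↔ ∃ y, ι y = x) (D : Finset G) (a : G → G)
    (h0 : ∀ d ∈ D, ∃ U : Finset Q, U.card ≤ L ∧ ∀ d' ∈ D, π d' = π d → π (a d') ∈ U)
    (base : ∀ b : Q → Q, BL k σ univ b C) (hC' : 0 ≤ C') (hσ : 0 ≤ σ)
    (fib : ∀ d ∈ D, ∀ (b : H → H) (E : Finset H),
      (∀ y ∈ E, d + ι y ∈ D ∧ a (d + ι y) = a d + ι (b y)) → BL k σ E b C') :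
    BL k σ D a (C' * L * C) := by
  classical
  intro ν hν
  have h1 : ∀ y, π (ι y) = 0 := fun y => (hex _).2 ⟨y, rfl⟩
  let μ : ℕ → Q → ℝ := fun t y => ∑ z ∈ univ.filter fun z => π z = y, ν t z
  have hμ : ∀ t y, 0 ≤ μ t y := fun t y => Finset.sum_nonneg fun _ _ => hν _ _
  have hs : ∀ t, ∑ y, μ t y = ∑ z, ν t z := fun t => Finset.sum_fiberwise _ _ _
  have hΦ : ∀ y u : Q, 0 ≤ ∏ t ∈ range k, μ t (u + t • y) ^ σ := fun y u =>
    Finset.prod_nonneg fun _ _ => Real.rpow_nonneg (hμ _ _) _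
  choose b hb using fun y : Q => Finite.exists_max fun u : Q => ∏ t ∈ range k, μ t (u + t • y) ^ σ
  have h2 := base b μ hμ
  simp only [hs] at h2
  rw [← Finset.sum_fiberwise D π, mul_assoc]
  refine le_trans ?_ (mul_le_mul_of_nonneg_left h2 (by positivity))
  rw [Finset.mul_sum]
  refine Finset.sum_le_sum fun y _ => ?_
  obtain ⟨U, hU, hU'⟩ : ∃ U : Finset Q, U.card ≤ L ∧
      ∀ d ∈ D.filter fun d => π d = y, π (a d) ∈ U := by
    rcases (D.filter fun d => π d = y).eq_empty_or_nonempty with he | ⟨d, hd⟩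
    · exact ⟨∅, Nat.zero_le _, by simp [he]⟩
    · obtain ⟨U, hU, hU'⟩ := h0 d (mem_filter.1 hd).1
      exact ⟨U, hU, fun d' hd' => hU' d' (mem_filter.1 hd').1
        ((mem_filter.1 hd').2.trans (mem_filter.1 hd).2.symm)⟩
  rw [← Finset.sum_fiberwise_of_maps_to hU']
  refine (Finset.sum_le_card_nsmul _ _ (C' * ∏ t ∈ range k, μ t (b y + t • y) ^ σ)
    fun u _ => ?_).trans ?_
  swap
  · rw [nsmul_eq_mul, ← mul_assoc, mul_comm _ C']
    exact mul_le_mul_of_nonneg_right (mul_le_mul_of_nonneg_left (Nat.cast_le.2 hU) hC') (hΦ _ _)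
  refine le_trans ?_ (mul_le_mul_of_nonneg_left (hb y u) hC')
  rcases ((D.filter fun d => π d = y).filter fun d => π (a d) = u).eq_empty_or_nonempty with
    he | ⟨d, hd'⟩
  · rw [he, Finset.sum_empty]
    exact mul_nonneg hC' (hΦ _ _)
  obtain ⟨hd'', rfl⟩ := mem_filter.1 hd'
  obtain ⟨hd, rfl⟩ := mem_filter.1 hd''
  have hc : ∀ w : H, ∃ u : H, π (a (d + ι w)) = π (a d) → a (d + ι w) = a d + ι u := by
    intro w
    by_cases h : π (a (d + ι w)) = π (a d)
    · obtain ⟨u, hu⟩ := (hex (a (d + ι w) - a d)).1 (by rw [map_sub, h, sub_self])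
      exact ⟨u, fun _ => by rw [hu]; abel⟩
    · exact ⟨0, fun h' => absurd h' h⟩
  choose c hc using hc
  have h3 := fib d hd c (univ.filter fun w => d + ι w ∈ D ∧ π (a (d + ι w)) = π (a d))
    (fun w hw => ⟨(mem_filter.1 hw).2.1, hc w (mem_filter.1 hw).2.2⟩)
    (fun t w => ν t (a d + t • d + ι w)) fun _ _ => hν _ _
  refine le_trans (le_of_eq ?_) (h3.trans (mul_le_mul_of_nonneg_left
    (Finset.prod_le_prod (fun _ _ => Real.rpow_nonneg (Finset.sum_nonneg fun _ _ => hν _ _) _)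
      fun t _ => Real.rpow_le_rpow (Finset.sum_nonneg fun _ _ => hν _ _) ?_ hσ) hC'))
  · symm
    refine Finset.sum_bij (fun w _ => d + ι w) (fun w hw => ?_) (fun w _ w' _ h => ?_)
      (fun x hx => ?_) fun w hw => ?_
    · exact mem_filter.2 ⟨mem_filter.2 ⟨(mem_filter.1 hw).2.1, by rw [map_add, h1, add_zero]⟩,
        (mem_filter.1 hw).2.2⟩
    · exact hι (add_left_cancel h)
    · obtain ⟨hx1, hx2⟩ := mem_filter.1 hx
      obtain ⟨w, hw⟩ := (hex (x - d)).1 (by rw [map_sub, (mem_filter.1 hx1).2, sub_self])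
      have : d + ι w = x := by rw [hw]; abel
      exact ⟨w, mem_filter.2 ⟨mem_univ _, this ▸ ⟨(mem_filter.1 hx1).1, hx2⟩⟩, this⟩
    · refine Finset.prod_congr rfl fun t _ => ?_
      rw [hc w (mem_filter.1 hw).2.2, map_add, map_nsmul, smul_add]
      congr 2
      abel
  · rw [← Finset.sum_image (s := univ) (g := fun w => a d + t • d + ι w) (f := ν t)
      fun w _ w' _ h => hι (add_left_cancel h)]
    refine Finset.sum_le_sum_of_subset_of_nonneg (fun x hx => ?_) fun _ _ _ => hν _ _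
    obtain ⟨w, -, rfl⟩ := mem_image.1 hx
    exact mem_filter.2 ⟨mem_univ _, by rw [map_add, h1, add_zero, map_add, map_nsmul]⟩

theorem base_norm {q n k s : ℕ} [NeZero q] (hs : 0 < s) (hk : s ≤ q * (k / q))
    (a : (Fin n → ZMod q) → Fin n → ZMod q) (μ : ℕ → (Fin n → ZMod q) → ℝ)
    (h0 : ∀ t z, 0 ≤ μ t z) (h1 : ∀ t, ∑ z, μ t z ≤ 1) :
    ∑ d, ∏ t ∈ range k, μ t (a d + t • d) ^ (1 / s : ℝ) ≤ ((pil q : ℝ) / q) ^ n := by
  set b := k / q with hb
  have hq : (0 : ℝ) < q := by exact_mod_cast NeZero.pos q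
  have hb0 : (0 : ℝ) < b := by
    have : 0 < b := Nat.pos_of_ne_zero fun h => by rw [h] at hk; omega
    exact_mod_cast this
  have hle : ∀ t z, μ t z ≤ 1 := fun t z =>
    (Finset.single_le_sum (fun z _ => h0 t z) (mem_univ z)).trans (h1 t)
  let w : ℕ → (Fin n → ZMod q) → ℝ := fun t z => μ t z ^ (1 / (n + 1 : ℕ) : ℝ)
  have hw : ∀ t z, 0 ≤ w t z := fun t z => Real.rpow_nonneg (h0 t z) _
  have hwn : ∀ t z, w t z ^ (n + 1) = μ t z := fun t z => by
    simp only [w, one_div]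
    exact Real.rpow_inv_natCast_pow (h0 t z) (Nat.succ_ne_zero n)
  let F : ZMod q × (Fin n → ZMod q) → ℝ := fun z =>
    ∑ t ∈ (range (q * b)).filter fun t : ℕ => (t : ZMod q) = z.1, w t z.2
  have h2 := upper n q F a fun z => Finset.sum_nonneg fun _ _ => hw _ _
  have h3 : ∑ z, F z ^ (n + 1) ≤ (b : ℝ) ^ n * (q * b) := by
    have h4 : ∀ z, F z ^ (n + 1) ≤ (b : ℝ) ^ n *
        ∑ t ∈ (range (q * b)).filter fun t : ℕ => (t : ZMod q) = z.1, μ t z.2 := by
      intro z
      refine (pow_sum_le_card_mul_sum_pow (fun _ _ => hw _ _) n).trans ?_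
      simp only [hwn]
      refine mul_le_mul_of_nonneg_right (pow_le_pow_left₀ (Nat.cast_nonneg _) ?_ _)
        (Finset.sum_nonneg fun _ _ => h0 _ _)
      rw [Nat.cast_le]
      refine (Finset.card_le_card_of_injOn (t := range b) (fun t => t / q) (fun t ht => ?_)
        fun t ht t' ht' h => ?_).trans (card_range b).le
      · exact mem_range.2 (Nat.div_lt_of_lt_mul (mem_range.1 (mem_filter.1 ht).1))
      · have h5 := (ZMod.natCast_eq_natCast_iff' _ _ _).1
          ((mem_filter.1 ht).2.trans (mem_filter.1 ht').2.symm)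
        rw [← Nat.div_add_mod t q, ← Nat.div_add_mod t' q, h5]
        exact congrArg (fun x => q * x + t' % q) h
    refine (Finset.sum_le_sum fun z _ => h4 z).trans ?_
    rw [← Finset.mul_sum, Fintype.sum_prod_type]
    refine mul_le_mul_of_nonneg_left ?_ (by positivity)
    simp only []
    rw [Finset.sum_congr rfl fun τ _ => Finset.sum_comm,
      Finset.sum_fiberwise (range (q * b)) (fun t : ℕ => (t : ZMod q)) fun t => ∑ z, μ t z]
    refine (Finset.sum_le_sum fun t _ => h1 t).trans (le_of_eq ?_)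
    simp
  have h6 : ∀ d, ∏ t ∈ range k, μ t (a d + t • d) ^ (1 / s : ℝ) ≤
      (1 / (q * b : ℝ)) ^ (n + 1) * (∑ τ, F (τ, a d + τ • d)) ^ (n + 1) := by
    intro d
    have e1 : ∑ τ, F (τ, a d + τ • d) = ∑ t ∈ range (q * b), w t (a d + t • d) := by
      rw [← Finset.sum_fiberwise (range (q * b)) (fun t : ℕ => (t : ZMod q))]
      refine Finset.sum_congr rfl fun τ _ => Finset.sum_congr rfl fun t ht => ?_
      rw [← (mem_filter.1 ht).2, Nat.cast_smul_eq_nsmul]
    have e2 := Real.geom_mean_le_arith_mean_weighted (range (q * b)) (fun _ => 1 / (q * b : ℝ))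
      (fun t => w t (a d + t • d)) (fun _ _ => by positivity)
      (by rw [Finset.sum_const, card_range, nsmul_eq_mul]; push_cast; field_simp)
      fun _ _ => hw _ _
    rw [← mul_pow, e1, Finset.mul_sum]
    refine le_trans ?_ (pow_le_pow_left₀
      (Finset.prod_nonneg fun _ _ => Real.rpow_nonneg (hw _ _) _) e2 _)
    rw [← Finset.prod_pow]
    refine (Finset.prod_le_prod_of_subset_of_le_one (s := range (q * b))
      (range_mono (Nat.mul_div_le k q)) (fun _ _ => Real.rpow_nonneg (h0 _ _) _)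
      fun _ _ _ => Real.rpow_le_one (h0 _ _) (hle _ _) (by positivity)).trans
      (Finset.prod_le_prod (fun _ _ => Real.rpow_nonneg (h0 _ _) _) fun t _ => ?_)
    rw [← Real.rpow_natCast, ← Real.rpow_mul (hw _ _), mul_comm, Real.rpow_mul (hw _ _),
      Real.rpow_natCast, hwn]
    refine Real.rpow_le_rpow_of_exponent_ge' (h0 _ _) (hle _ _) (by positivity) ?_
    exact one_div_le_one_div_of_le (by exact_mod_cast hs) (by exact_mod_cast hk)
  refine (Finset.sum_le_sum fun d _ => h6 d).trans ?_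
  rw [← Finset.mul_sum]
  refine (mul_le_mul_of_nonneg_left (h2.trans (mul_le_mul_of_nonneg_left h3 (by positivity)))
    (by positivity)).trans (le_of_eq ?_)
  rw [div_pow, div_pow, mul_pow]
  field_simp
  ring

theorem base {q n k s : ℕ} [NeZero q] (hs : 0 < s) (hk : s ≤ q * (k / q))
    (a : (Fin n → ZMod q) → Fin n → ZMod q) :
    BL k (1 / s) univ a (((pil q : ℝ) / q) ^ n) := by
  intro ν hν
  have hσ : (1 / s : ℝ) ≠ 0 := by positivity
  have hT : ∀ t, 0 ≤ ∑ z, ν t z := fun t => Finset.sum_nonneg fun _ _ => hν _ _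
  have h := base_norm hs hk a (fun t z => ν t z / ∑ z, ν t z)
    (fun t z => div_nonneg (hν _ _) (hT t)) fun t => by
      rw [← Finset.sum_div]; exact div_self_le_one _
  refine le_trans (le_of_eq ?_) (mul_le_mul_of_nonneg_right h
    (Finset.prod_nonneg fun _ _ => Real.rpow_nonneg (hT _) _))
  rw [Finset.sum_mul]
  refine Finset.sum_congr rfl fun d _ => ?_
  rw [← Finset.prod_mul_distrib]
  refine Finset.prod_congr rfl fun t _ => ?_
  rw [← Real.mul_rpow (div_nonneg (hν _ _) (hT t)) (hT t)]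
  rcases (hT t).eq_or_lt with h0 | h0
  · rw [← h0, mul_zero, (Finset.sum_eq_zero_iff_of_nonneg fun z _ => hν t z).1 h0.symm _
      (mem_univ _)]
  · rw [div_mul_cancel₀ _ h0.ne']

/-- Multiplication by `q` as a map `ZMod N → ZMod (q * N)`. -/
def up (q N : ℕ) : ZMod N →+ ZMod (q * N) :=
  ZMod.lift N ⟨q • Int.castAddHom (ZMod (q * N)), by
    simp only [AddMonoidHom.nsmul_apply, Int.coe_castAddHom, Int.cast_natCast, nsmul_eq_mul]
    rw [← Nat.cast_mul, ZMod.natCast_self]⟩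

theorem up_nat (q N m : ℕ) : up q N m = q • (m : ZMod (q * N)) := by
  have := ZMod.lift_coe N ⟨q • Int.castAddHom (ZMod (q * N)), by
    simp only [AddMonoidHom.nsmul_apply, Int.coe_castAddHom, Int.cast_natCast, nsmul_eq_mul]
    rw [← Nat.cast_mul, ZMod.natCast_self]⟩ (m : ℤ)
  simpa [up] using this

theorem up_cast (q N : ℕ) [NeZero (q * N)] (x : ZMod (q * N)) :
    up q N (x.val : ZMod N) = q • x := by
  rw [up_nat, ZMod.natCast_zmod_val]

theorem up_inj (q N : ℕ) [NeZero q] [NeZero N] : Function.Injective (up q N) := by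
  refine (injective_iff_map_eq_zero _).2 fun x hx => ?_
  rw [← ZMod.natCast_zmod_val x] at hx ⊢
  rw [up_nat, nsmul_eq_mul, ← Nat.cast_mul, ZMod.natCast_eq_zero_iff] at hx
  exact (ZMod.natCast_eq_zero_iff _ _).2 (Nat.dvd_of_mul_dvd_mul_left (NeZero.pos q) hx)

theorem down_zero (q N : ℕ) [NeZero (q * N)] (x : ZMod (q * N)) :
    ZMod.castHom (dvd_mul_right q N) (ZMod q) x = 0 ↔ ∃ e, x = q • e := by
  constructor
  · intro h
    rw [← ZMod.natCast_zmod_val x, map_natCast, ZMod.natCast_eq_zero_iff] at h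
    obtain ⟨c, hc⟩ := h
    exact ⟨c, by rw [nsmul_eq_mul, ← Nat.cast_mul, ← hc, ZMod.natCast_zmod_val]⟩
  · rintro ⟨e, rfl⟩
    rw [map_nsmul, nsmul_eq_mul, ZMod.natCast_self, zero_mul]

theorem chain {n k s : ℕ} (hs : 0 < s) (m : ℕ) : ∀ (q L : ℕ → ℕ) (N : ℕ) [NeZero N],
    ∏ i ∈ range m, q i = N → (∀ i < m, s ≤ q i * (k / q i)) →
      ∀ (D : Finset (Fin n → ZMod N)) (a : (Fin n → ZMod N) → Fin n → ZMod N),
      (∀ i < m, ∀ c ∈ D, ∃ U : Finset (Fin n → ZMod N), U.card ≤ L i ∧ ∀ d ∈ D,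
        (∃ e, d - c = (∏ j ∈ range (i + 1), q j) • e) →
        (∃ e, a d - a c = (∏ j ∈ range i, q j) • e) →
        ∃ u ∈ U, ∃ e, a d - u = (∏ j ∈ range (i + 1), q j) • e) →
      BL k (1 / s) D a (∏ i ∈ range m, L i * ((pil (q i) : ℝ) / q i) ^ n) := by
  classical
  induction m with
  | zero =>
    rintro q L N _ rfl - D a - ν hν
    have : Unique (Fin n → ZMod (∏ i ∈ range 0, q i)) := inferInstanceAs (Unique (Fin n → ZMod 1))
    refine (Finset.sum_le_sum_of_subset_of_nonneg (subset_univ D) fun _ _ _ =>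
      Finset.prod_nonneg fun _ _ => Real.rpow_nonneg (hν _ _) _).trans (le_of_eq ?_)
    rw [Finset.prod_range_zero fun i => L i * ((pil (q i) : ℝ) / q i) ^ n, one_mul]
    simp only [Fintype.sum_unique]
    exact Finset.prod_congr rfl fun t _ => by congr 2; exact Subsingleton.elim _ _
  | succ m ih =>
    intro q L N hN e hk D a ha
    rw [Finset.prod_range_succ', mul_comm] at e
    generalize hM : ∏ i ∈ range m, q (i + 1) = M at e
    subst e
    have : NeZero (q 0) := ⟨left_ne_zero_of_mul hN.ne⟩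
    have : NeZero M := ⟨right_ne_zero_of_mul hN.ne⟩
    let π := (ZMod.castHom (dvd_mul_right (q 0) M) (ZMod (q 0))).toAddMonoidHom.compLeft (Fin n)
    let ι := (up (q 0) M).compLeft (Fin n)
    have hι : Function.Injective ι := fun x y h => funext fun j => up_inj _ _ (congrFun h j)
    have h1 : ∀ x, π x = 0 ↔ ∃ e, x = q 0 • e := fun x =>
      ⟨fun h => by
        choose e he using fun j => (down_zero _ _ (x j)).1 (congrFun h j)
        exact ⟨e, funext he⟩,
      fun ⟨e, he⟩ => funext fun j => (down_zero _ _ (x j)).2 ⟨e j, congrFun he j⟩⟩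
    have h2 : ∀ x, ∃ y, ι y = q 0 • x := fun x =>
      ⟨fun j => ((x j).val : ZMod M), funext fun j => up_cast _ _ (x j)⟩
    have h3 : ∀ y, ∃ x, ι y = q 0 • x := fun y =>
      ⟨fun j => ((y j).val : ZMod (q 0 * M)), funext fun j => by
        have := up_nat (q 0) M (y j).val
        rwa [ZMod.natCast_zmod_val] at this⟩
    have h4 : ∀ i y, (∃ e, y = (∏ j ∈ range i, q (j + 1)) • e) →
        ∃ e, ι y = (∏ j ∈ range (i + 1), q j) • e := by
      rintro i y ⟨e, rfl⟩
      obtain ⟨x, hx⟩ := h3 e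
      exact ⟨x, by rw [map_nsmul, hx, Finset.prod_range_succ', mul_smul]⟩
    rw [Finset.prod_range_succ', ← mul_assoc]
    refine BL.step π ι hι (fun x => (h1 x).trans ⟨fun ⟨e, he⟩ => he ▸ h2 e, fun ⟨y, hy⟩ =>
      hy ▸ h3 y⟩) D a (fun d hd => ?_) (base hs (hk 0 (by omega)))
      (Finset.prod_nonneg fun _ _ => by positivity) (by positivity)
      fun d hd b E hE => ih (fun i => q (i + 1)) (fun i => L (i + 1)) _ hM
        (fun i hi => hk (i + 1) (by omega)) E b fun i hi c hc => ?_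
    · obtain ⟨U, hU, hU'⟩ := ha 0 (by omega) d hd
      refine ⟨U.image π, card_image_le.trans hU, fun d' hd' h => ?_⟩
      simp only [zero_add, Finset.prod_range_one, Finset.prod_range_zero, one_smul] at hU'
      rw [← sub_eq_zero, ← map_sub] at h
      obtain ⟨u, hu, he⟩ := hU' d' hd' ((h1 _).1 h) ⟨_, rfl⟩
      refine mem_image.2 ⟨u, hu, ?_⟩
      rw [eq_comm, ← sub_eq_zero, ← map_sub]
      exact (h1 _).2 he
    · obtain ⟨U, hU, hU'⟩ := ha (i + 1) (by omega) _ (hE c hc).1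
      refine ⟨U.image fun u => Function.invFun ι (u - a d), card_image_le.trans hU,
        fun y hy h5 h6 => ?_⟩
      obtain ⟨u, hu, e, he⟩ := hU' _ (hE y hy).1
        (by rw [add_sub_add_left_eq_sub, ← map_sub]; exact h4 _ _ h5)
        (by rw [(hE y hy).2, (hE c hc).2, add_sub_add_left_eq_sub, ← map_sub]; exact h4 _ _ h6)
      obtain ⟨v, hv⟩ := h2 e
      rw [(hE y hy).2, Finset.prod_range_succ', mul_smul, ← hv, ← map_nsmul] at he
      refine ⟨_, mem_image_of_mem _ hu, v, ?_⟩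
      have h7 : u - a d = ι (b y - (∏ j ∈ range (i + 1), q (j + 1)) • v) := by
        rw [map_sub, ← he]; abel
      rw [h7, Function.leftInverse_invFun hι]
      abel

end Pool.Agent.MP_4b405e_nt.H41
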