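import Pool.Agent.MP_4b405e_nt.H41.Side

/-! The sum-difference bound `201 / 115` for the slopes `0, 1, 2, ∞`. -/

namespace Pool.Agent.MP_4b405e_nt.H41

open Pool.Agent.MP_4b405e_nt.H17

variable {Z : Type} [AddCommGroup Z] {S : Sp} {g : S.Ω → Z × Z} {N : ℝ}

theorem line (S : Sp) {W F P : S.Ω → Z} (k : ℤ) (h : ∀ ω, W ω = F ω + k • P ω) :
    S.H (fun ω => (W ω, P ω)) ≤ S.H F + S.H P :=
  sub_add S fun a b h1 h2 => pm (by rw [h a, h b, h1, h2]) h2

theorem joint (g : S.Ω → Z × Z) (E : S.Ω → Z) (L : Z × Z → Z) :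
    S.H (fun ω => (E ω + L (g ω), g ω)) = S.H fun ω => (E ω, g ω) :=
  S.H_congr (fun a b h => by
      obtain ⟨h1, h2⟩ := Prod.mk.inj h
      rw [h2] at h1
      exact pm (add_right_cancel h1) h2)
    fun a b h => by
      obtain ⟨h1, h2⟩ := Prod.mk.inj h
      exact pm (by rw [h1, h2]) h2

/-- Propagation of entropy bounds through four translates of the side information. -/
theorem web (h : Bd S g N) (h2 : ∀ z : Z, z + z = 0 → z = 0) (E : S.Ω → Z) {n : ℝ}
    (n0 : S.H E ≤ n) (n1 : S.H (fun ω => E ω - (g ω).2 - (g ω).2) ≤ n) :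
    22 * S.H (fun ω => (E ω, g ω)) + 7 * S.H g ≤
      S.H (fun ω => (E ω, (g ω).2)) + 22 * n + 48 * N := by
  have hx := h.x
  have hs := h.s
  have hy := h.y
  have hr := h.r
  have a0 := rule1 h fun ω => E ω + ((g ω).1 + (g ω).1)
  have a1 := line S (W := fun ω => E ω + ((g ω).1 + (g ω).1)) (F := E) (P := fun ω => (g ω).1) 2
    fun ω => by module
  have a2 := line S (W := fun ω => E ω + ((g ω).1 + (g ω).1))
    (F := fun ω => E ω - (g ω).2 - (g ω).2) (P := fun ω => fs (g ω)) 2 fun ω => by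
      unfold fs; module
  have a3 := joint g E fun q => q.1 + q.1
  have b0 := rule1 h fun ω => E ω + -(fs (g ω) + fs (g ω))
  have b1 := line S (W := fun ω => E ω + -(fs (g ω) + fs (g ω)))
    (F := fun ω => E ω - (g ω).2 - (g ω).2) (P := fun ω => (g ω).1) (-2) fun ω => by
      unfold fs; module
  have b2 := line S (W := fun ω => E ω + -(fs (g ω) + fs (g ω))) (F := E)
    (P := fun ω => fs (g ω)) (-2) fun ω => by module
  have b3 := joint g E fun q => -(fs q + fs q)
  have c0 := rule2 h fun ω => E ω + (fs (g ω) + fs (g ω))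
  have c1 := line S (W := fun ω => E ω + (fs (g ω) + fs (g ω)))
    (F := fun ω => E ω + ((g ω).1 + (g ω).1)) (P := fun ω => (g ω).2) 2 fun ω => by
      unfold fs; module
  have c2 := line S (W := fun ω => E ω + (fs (g ω) + fs (g ω)))
    (F := fun ω => E ω - (g ω).2 - (g ω).2) (P := fun ω => fr (g ω)) 2 fun ω => by
      unfold fs fr; module
  have c3 := line S (W := fun ω => E ω + (fs (g ω) + fs (g ω))) (F := E)
    (P := fun ω => fs (g ω)) 2 fun ω => by module
  have c4 := joint g E fun q => fs q + fs q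
  have d0 := rule3 h fun ω => E ω + ((g ω).2 + (g ω).2)
  have d1 : S.H (fun ω => (E ω + ((g ω).2 + (g ω).2), (g ω).2)) ≤
      S.H fun ω => (E ω, (g ω).2) := S.H_mono fun a b e => by
    obtain ⟨e1, e2⟩ := Prod.mk.inj e
    exact pm (by rw [e1, e2]) e2
  have d2 := line S (W := fun ω => E ω + ((g ω).2 + (g ω).2))
    (F := fun ω => E ω + -(fs (g ω) + fs (g ω))) (P := fun ω => fr (g ω)) 2 fun ω => by
      unfold fs fr; module
  have d3 := line S (W := fun ω => E ω + ((g ω).2 + (g ω).2))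
    (F := fun ω => E ω + (fs (g ω) + fs (g ω))) (P := fun ω => (g ω).1) (-2) fun ω => by
      unfold fs; module
  have d4 := joint g E fun q => q.2 + q.2
  have f := sub_add S (X := fun ω => E ω + ((g ω).2 + (g ω).2))
    (Y := fun ω => E ω + ((g ω).1 + (g ω).1)) (U := fun ω => (E ω, g ω)) fun a b e1 e2 => by
      have e : g a = g b := h.inj a b (sub_eq_zero.1 (h2 _ (by
        linear_combination (norm := module) e2 - e1)))
      simp only [e] at e1
      exact pm (add_right_cancel e1) e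
  linarith

/-- The entropy form of the bound. -/
theorem four (h : Bd S g N) (h2 : ∀ z : Z, z + z = 0 → z = 0) : 115 * S.H g ≤ 201 * N := by
  obtain ⟨V, φ, ψ, hφ, hψ, hs, hci⟩ := dbl (α := Z × Z) (β := Z × Z) S S
    (fun ω => fs (g ω)) (fun ω => fs (g ω)) (Law.refl S _)
  have hd : Det g fun ω => fs (g ω) := fun _ _ e => congrArg fs e
  have hT := hci g g hd hd
  have h0 := h.pull hφ
  have h1 := h.pull hψ
  unfold fs at hs
  let E : V.Ω → Z := fun t => (g (φ t)).1 - (g (φ t)).2 + (g (ψ t)).2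
  have key : ∀ a b, (g (φ a)).1 = (g (φ b)).1 → (g (φ a)).2 = (g (φ b)).2 →
      (g (ψ a)).1 = (g (ψ b)).1 → (g (φ a), g (ψ a)) = (g (φ b), g (ψ b)) :=
    fun a b e1 e2 e3 => pm (Prod.ext e1 e2) (Prod.ext e3 (by
      linear_combination (norm := module) e1 + e2 - e3 - hs a + hs b))
  have p0 := V.submod (X := fun t => ((g (φ t)).1, (g (ψ t)).1))
    (Y := fun t => ((g (φ t)).2, fr (g (ψ t)))) (Z := E) (U := fun t => (g (φ t), g (ψ t)))
    (fun a b e => by
      obtain ⟨e1, e2⟩ := Prod.mk.inj e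
      simp only [E]
      linear_combination (norm := module) (2 : ℤ) • e1 - e2 - hs a + hs b)
    (fun a b e => by
      obtain ⟨e1, e2⟩ := Prod.mk.inj e
      simp only [E]
      unfold fr at e2
      linear_combination (norm := module) e2 - (2 : ℤ) • e1 + hs a - hs b)
    fun a b e e' => key a b (Prod.mk.inj e).1 (Prod.mk.inj e').1 (Prod.mk.inj e).2
  have p1 := V.submod (X := fun t => ((g (φ t)).2, (g (ψ t)).1))
    (Y := fun t => ((g (φ t)).1, fr (g (ψ t))))
    (Z := fun t => E t - (g (ψ t)).2 - (g (ψ t)).2) (U := fun t => (g (φ t), g (ψ t)))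
    (fun a b e => by
      obtain ⟨e1, e2⟩ := Prod.mk.inj e
      simp only [E]
      linear_combination (norm := module) e2 - (2 : ℤ) • e1 + hs a - hs b)
    (fun a b e => by
      obtain ⟨e1, e2⟩ := Prod.mk.inj e
      simp only [E]
      unfold fr at e2
      linear_combination (norm := module) (2 : ℤ) • e1 - e2 - hs a + hs b)
    fun a b e e' => key a b (Prod.mk.inj e').1 (Prod.mk.inj e).1 (Prod.mk.inj e).2
  have q0 := pair_le V (fun t => (g (φ t)).1) fun t => (g (ψ t)).1
  have q1 := pair_le V (fun t => (g (φ t)).2) fun t => fr (g (ψ t))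
  have q2 := pair_le V (fun t => (g (φ t)).2) fun t => (g (ψ t)).1
  have q3 := pair_le V (fun t => (g (φ t)).1) fun t => fr (g (ψ t))
  have r0 : V.H (fun t => (g (φ t), g (ψ t))) ≤ V.H fun t => (E t, (g (ψ t)).2) :=
    V.H_mono fun a b e => by
      obtain ⟨e1, e2⟩ := Prod.mk.inj e
      simp only [E] at e1
      have e3 : g (φ a) = g (φ b) := h.inj _ _ (by linear_combination (norm := module) e1 - e2)
      have e4 := congrArg Prod.fst e3
      have e5 := congrArg Prod.snd e3
      exact key a b e4 e5 (by linear_combination (norm := module) e4 + e5 - e2 - hs a + hs b)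
  have r1 : V.H (fun t => (E t, (g (ψ t)).2)) ≤ V.H fun t => (g (φ t), g (ψ t)) :=
    V.H_mono fun a b e => by
      obtain ⟨e1, e2⟩ := Prod.mk.inj e
      simp only [E, e1, e2]
  obtain ⟨M, σ, τ, hσ, hτ, hy, hcj⟩ := dbl (α := Z × Z) (β := Z × Z) V S
    (fun t => (g (ψ t)).2) (fun ω => (g ω).2) (hψ.law fun ω => (g ω).2)
  have hc := hcj (fun t => (E t, (g (ψ t)).2)) g (fun _ _ e => (Prod.mk.inj e).2)
    fun _ _ e => congrArg Prod.snd e
  have hc' : M.H (fun t => ((E (σ t), (g (ψ (σ t))).2), g (τ t))) ≤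
      M.H fun t => (E (σ t), g (τ t)) := M.H_mono fun a b e => by
    obtain ⟨e1, e2⟩ := Prod.mk.inj e
    exact pm (pm e1 ((hy a).trans ((congrArg Prod.snd e2).trans (hy b).symm))) e2
  have s0 : M.H (fun t => E (σ t)) = V.H E := hσ.H E
  have s1 : M.H (fun t => E (σ t) - (g (τ t)).2 - (g (τ t)).2) =
      V.H fun t => E t - (g (ψ t)).2 - (g (ψ t)).2 := by
    rw [← hσ.H fun t => E t - (g (ψ t)).2 - (g (ψ t)).2]
    congr 1
    funext t
    rw [hy t]
  have s2 : M.H (fun t => (E (σ t), (g (τ t)).2)) = V.H fun t => (E t, (g (ψ t)).2) := by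
    rw [← hσ.H fun t => (E t, (g (ψ t)).2)]
    congr 1
    funext t
    rw [hy t]
  have s3 : M.H (fun t => g (τ t)) = S.H g := hτ.H g
  have w := web (h.pull hτ) h2 (fun t => E (σ t))
    (n := 4 * N - V.H fun t => (g (φ t), g (ψ t)))
    (by linarith [h0.x, h0.y, h1.x, h1.r]) (by linarith [h0.x, h0.y, h1.x, h1.r])
  linarith [h.s, h.y]

end Pool.Agent.MP_4b405e_nt.H41
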